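import Pool.Agent.Q230.TS.Poly

/-!
# TOTSYNC is coNP-complete

`Dig` is the type of digraphs given by the lists of the heads of the edges leaving the vertices
`0, 1, …` (with multiplicities, loops allowed), `OutReg k G` says that `G` is a `k`-out-regular
digraph (`k ≥ 1`, at least one vertex), a colouring matches at every vertex the edges leaving it
with the letters `0, …, k-1`, `TotSync k G` says that the automaton given by any colouring of `G` is
synchronizing, and `TOTSYNC G` says that `G` is `k`-out-regular and totally synchronizing for some
`k` (which is then determined by `G`).

Reduction from the complement of 3SAT: the digraph has levels, all edges lead to the next level, and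
the vertices of the last level have one edge to the only used vertex `c` of level `0` and one edge
to a vertex `B` of level `1`; `c` has both edges to a vertex `C` of level `1`.  So in every
colouring every pair of vertices can be merged or brought to `{B, C}`, and the two tokens started
at `B` and `C` then play a game in which the letters choose a clause (a universal choice) and the
colours choose a literal of it (an existential choice).
-/

set_option autoImplicit false

namespace Pool.Agent.Results.MP_00a7b4_lc.TotSyncCoNPComplete

open Pool.Agent.NPC Pool.Agent.NPC.Q230TS

/-- **TOTSYNC is coNP-complete** under polynomial-time many-one reductions: it is in coNP and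
coNP-hard, and it is already coNP-hard to decide whether a digraph is `2`-out-regular and totally
synchronizing. -/
theorem result :
    InCoNPP TOTSYNC ∧ CoNPHardP TOTSYNC ∧
      CoNPHardP (fun G => OutReg 2 G ∧ TotSync 2 G) := by
  refine ⟨mem, ?_, ?_⟩
  · refine HardPr.toCoNPHardP (Pr := OutReg 2) ?_
    intro L hL
    obtain ⟨f, hf, hpr, hfL⟩ := hard L hL
    refine ⟨f, hf, hpr, fun x => (hfL x).trans (not_congr ?_)⟩
    constructor
    · intro h; exact ⟨2, hpr x, h⟩
    · rintro ⟨k, h1, h2⟩
      have e1 := reg_kk h1
      have e2 := reg_kk (hpr x)
      rw [e2, ← e1]
      exact h2
  · refine HardPr.toCoNPHardP (Pr := OutReg 2) ?_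
    intro L hL
    obtain ⟨f, hf, hpr, hfL⟩ := hard L hL
    refine ⟨f, hf, hpr, fun x => (hfL x).trans (not_congr ?_)⟩
    exact ⟨fun h => ⟨hpr x, h⟩, fun h => h.2⟩

end Pool.Agent.Results.MP_00a7b4_lc.TotSyncCoNPComplete
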